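import Pool.Agent.AEC.StmtsB

/-!
# Squad AEC, row TPA (coherent diagrams), helper46
-/

open FirstOrder FirstOrder.Language Cardinal Set

universe u

namespace Pool.Agent.AEC.H46

theorem good_congr {L : FirstOrder.Language.{u, u}} {κ : Cardinal.{u}} (K : AEC L κ) (n : ℕ)
    (p p' : ∀ m, Pat L κ.out m) (h : ∀ m, m < n → p m = p' m) (hG : K.Good n p) :
    K.Good n p' := by
  intro μ
  obtain ⟨A, T, lo, Y, hY, hT⟩ := hG μ
  exact ⟨A, T, lo, Y, hY, fun m hm e he => (hT m hm e he).trans (h m hm)⟩

theorem tpa (hPrs : PrsStmt.{u}) (hTps : TpsStmt.{u}) : TpaStmt.{u} := by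
  intro L κ K hA
  have h0 : ∀ p : ∀ m, Pat L κ.out m, K.Good 0 p := by
    intro p μ
    obtain ⟨A, hA'⟩ := hA (max μ 1)
    have hne : Nonempty A.α := by
      apply Cardinal.mk_ne_zero_iff.1
      intro hz
      rw [hz] at hA'
      exact absurd (le_trans (le_max_right μ 1) hA') (by simp)
    obtain ⟨T⟩ := hPrs L κ K A hne
    refine ⟨A, T, IsWellOrder.linearOrder WellOrderingRel, Set.univ, ?_, ?_⟩
    · rw [Cardinal.mk_univ]
      exact le_trans (le_max_left _ _) hA'
    · intro m hm
      exact absurd hm (Nat.not_lt_zero m)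
  have hex : ∀ (n : ℕ) (p : ∀ m, Pat L κ.out m), ∃ q : Pat L κ.out n,
      K.Good n p → K.Good (n + 1) (Function.update p n q) := by
    intro n p
    by_cases hG : K.Good n p
    · obtain ⟨q, hq⟩ := hTps L κ K n p hG
      exact ⟨q, fun _ => hq⟩
    · exact ⟨p n, fun h => absurd h hG⟩
  choose q hq using hex
  let p0 : ∀ m, Pat L κ.out m := fun m =>
    ⟨fun _ _ => False, fun _ _ _ => False, fun _ _ _ _ => False⟩
  let P : ℕ → (∀ m, Pat L κ.out m) := fun n =>
    Nat.rec p0 (fun n p => Function.update p n (q n p)) n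
  have hPs : ∀ n, P (n + 1) = Function.update (P n) n (q n (P n)) := fun n => rfl
  have hPG : ∀ n, K.Good n (P n) := by
    intro n
    induction n with
    | zero => exact h0 _
    | succ n ih =>
      rw [hPs]
      exact hq n _ ih
  have hPp : ∀ n m, m < n → P n m = q m (P m) := by
    intro n
    induction n with
    | zero =>
      intro m hm
      exact absurd hm (Nat.not_lt_zero m)
    | succ n ih =>
      intro m hm
      rw [hPs]
      rcases Nat.lt_succ_iff_lt_or_eq.1 hm with h | h
      · rw [Function.update_of_ne (Nat.ne_of_lt h)]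
        exact ih m h
      · subst h
        rw [Function.update_self]
  refine ⟨fun n => q n (P n), fun n => ?_⟩
  have hG : K.Good (n + 1) (fun n => q n (P n)) :=
    good_congr K (n + 1) (P (n + 1)) _ (fun m hm => hPp (n + 1) m hm) (hPG (n + 1))
  obtain ⟨A, T, lo, Y, hY, h⟩ := hG ℵ₀
  have hinf : Y.Infinite := by
    rw [← Set.infinite_coe_iff]
    exact Cardinal.infinite_iff.2 hY
  obtain ⟨t, ht, hc⟩ := hinf.exists_subset_card_eq n
  let e : Fin n ↪o A.α := t.orderEmbOfFin hc
  have he : ∀ i, e i ∈ Y := fun i => ht (Finset.orderEmbOfFin_mem t hc i)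
  refine ⟨A, T, e.toEmbedding, fun m a => ?_⟩
  have hmn : m ≤ n := by
    have := Fintype.card_le_of_injective a a.injective
    simpa using this
  exact h m (Nat.lt_succ_of_le hmn) (a.trans e) (fun i => he (a i))

end Pool.Agent.AEC.H46
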