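import Pool.Agent.AEC.StmtsS

/-!
# Squad AEC, row S_CLO (the closure argument), helper46
-/

open FirstOrder FirstOrder.Language Cardinal Set

universe u

namespace Pool.Agent.AEC.S.H46

section Graph

variable {L : FirstOrder.Language.{u, u}} {N : Type u} [L.Structure N] {B C : Set N}

theorem tup (hcl : ∀ x ∈ C, ∀ y, adj L x y → y ∈ C ∨ y ∈ B) {n : ℕ} {R : L.Relations n}
    {v : Fin n → N} (hv : Structure.RelMap R v) {j : Fin n} (hj : v j ∈ C) (i : Fin n) :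
    v i ∈ C ∨ v i ∈ B := by
  by_cases hij : v j = v i
  · left
    rw [← hij]
    exact hj
  · exact hcl (v j) hj (v i) ⟨hij, n, R, v, hv, ⟨j, rfl⟩, ⟨i, rfl⟩⟩

theorem path (hcl : ∀ x ∈ C, ∀ y, adj L x y → y ∈ C ∨ y ∈ B) {x y : N}
    (h : con L Cᶜ x y) : ∃ p : Set N, p.Finite ∧ ∀ As : Set N, p ∩ C ⊆ As →
      Relation.ReflTransGen (fun a b => adjIn L (As ∪ B) a b ∧ b ∈ As) x y := by
  induction h with
  | refl => exact ⟨∅, Set.finite_empty, fun As _ => Relation.ReflTransGen.refl⟩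
  | tail h1 h2 ih =>
    rename_i b c
    obtain ⟨p, hp, ih⟩ := ih
    obtain ⟨⟨hbc, n, R, v, hv, hi, ⟨j, hj⟩⟩, hc⟩ := h2
    have hcC : c ∈ C := not_not.1 hc
    refine ⟨p ∪ Set.range v, hp.union (Set.finite_range v), fun As hAs => ?_⟩
    have h3 : Set.range v ∩ C ⊆ As := fun z hz => hAs ⟨Or.inr hz.1, hz.2⟩
    refine Relation.ReflTransGen.tail (ih As fun z hz => hAs ⟨Or.inl hz.1, hz.2⟩) ?_
    refine ⟨⟨hbc, n, R, v, hv, ?_, hi, ⟨j, hj⟩⟩, h3 ⟨⟨j, hj⟩, hcC⟩⟩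
    intro i
    rcases tup hcl hv (j := j) (by rw [hj]; exact hcC) i with h4 | h4
    · exact Or.inl (h3 ⟨⟨i, rfl⟩, h4⟩)
    · exact Or.inr h4

theorem nbr (hcl : ∀ x ∈ C, ∀ y, adj L x y → y ∈ C ∨ y ∈ B) {s y : N} (hy : y ∈ C)
    (h : adj L s y) : ∃ q : Set N, q.Finite ∧ ∀ As : Set N, q ∩ C ⊆ As →
      y ∈ As ∧ adjIn L (As ∪ B) s y := by
  obtain ⟨hsy, n, R, v, hv, hi, ⟨j, hj⟩⟩ := h
  refine ⟨Set.range v, Set.finite_range v, fun As hAs => ⟨hAs ⟨⟨j, hj⟩, hy⟩, ?_⟩⟩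
  refine ⟨hsy, n, R, v, hv, ?_, hi, ⟨j, hj⟩⟩
  intro i
  rcases tup hcl hv (j := j) (by rw [hj]; exact hy) i with h4 | h4
  · exact Or.inl (hAs ⟨⟨i, rfl⟩, h4⟩)
  · exact Or.inr h4

end Graph

theorem mk_biUnion_le_of {α : Type u} {κ : Cardinal.{u}} (hκ : ℵ₀ ≤ κ) (s : Set α) (hs : #s ≤ κ)
    {β : Type u} (f : α → Set β) (hf : ∀ a, #(f a) ≤ κ) : #(⋃ a ∈ s, f a : Set β) ≤ κ := by
  refine (mk_biUnion_le f s).trans ?_
  calc #s * ⨆ x : s, #(f x) ≤ κ * κ := mul_le_mul' hs (ciSup_le' fun a => hf a)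
    _ = κ := mul_eq_self hκ

section Clo

variable {L : FirstOrder.Language.{u, u}} {κ : Cardinal.{u}} {K : AEC L κ} (O : Orb K)

/-- `D_*` -/
def star (D : Set O.N.α) : Set O.N.α := {x | x ∈ O.C ∧ ∃ k, O.e k x ∈ D}

/-- the copies of `C` which meet `D` -/
def meets (D : Set O.N.α) : Set O.ι := {k | ∃ x ∈ O.C, O.e k x ∈ D}

theorem mk_star_le (D : Set O.N.α) : #(star O D) ≤ #D := by
  have h : ∀ x : star O D, ∃ k, O.e k x ∈ D := fun x => x.2.2
  choose k hk using h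
  refine mk_le_of_injective (f := fun x : star O D => (⟨O.e (k x) x, hk x⟩ : D)) ?_
  intro x y hxy
  have h1 : O.e (k x) x = O.e (k y) y := congrArg Subtype.val hxy
  have h2 : k x = k y := O.disj _ _ _ _ x.2.1 y.2.1 h1
  rw [h2] at h1
  exact Subtype.ext ((O.e (k y)).injective h1)

theorem mk_meets_le (D : Set O.N.α) : #(meets O D) ≤ #D := by
  have h : ∀ k : meets O D, ∃ x ∈ O.C, O.e k x ∈ D := fun k => k.2
  choose x hx hxD using h
  refine mk_le_of_injective (f := fun k : meets O D => (⟨O.e k (x k), hxD k⟩ : D)) ?_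
  intro k k' hkk
  have h1 : O.e k (x k) = O.e k' (x k') := congrArg Subtype.val hkk
  exact Subtype.ext (O.disj _ _ _ _ (hx k) (hx k') h1)

/-- the elements of `C` needed for `D` -/
def need (p : O.N.α → O.N.α → Set O.N.α) (q : O.N.α → Set O.N.α) (D : Set O.N.α) :
    Set O.N.α :=
  star O D ∪ (⋃ x ∈ star O D, ⋃ y ∈ star O D, p x y) ∪ ⋃ s ∈ O.B, q s

theorem mk_need_le (p : O.N.α → O.N.α → Set O.N.α) (q : O.N.α → Set O.N.α)
    (hp : ∀ x y, (p x y).Finite) (hq : ∀ s, (q s).Finite) (D : Set O.N.α) (hD : #D ≤ κ) :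
    #(need O p q D) ≤ κ := by
  have hκ := K.aleph0_le
  have hfin : ∀ s : Set O.N.α, s.Finite → #s ≤ κ := fun s hs => (hs.lt_aleph0).le.trans hκ
  have h1 : #(star O D) ≤ κ := (mk_star_le O D).trans hD
  have h2 : #(⋃ x ∈ star O D, ⋃ y ∈ star O D, p x y : Set O.N.α) ≤ κ :=
    mk_biUnion_le_of hκ _ h1 _ fun x => mk_biUnion_le_of hκ _ h1 _ fun y => hfin _ (hp x y)
  have h3 : #(⋃ s ∈ O.B, q s : Set O.N.α) ≤ κ :=
    mk_biUnion_le_of hκ _ O.small _ fun s => hfin _ (hq s)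
  refine (mk_union_le _ _).trans (add_le_of_le hκ ((mk_union_le _ _).trans
    (add_le_of_le hκ h1 h2)) h3)

/-- one closure step -/
def clo (p : O.N.α → O.N.α → Set O.N.α) (q : O.N.α → Set O.N.α) (D : Set O.N.α) :
    Set O.N.α :=
  D ∪ O.B ∪ ⋃ k ∈ meets O D, O.e k '' (need O p q D)

theorem mk_clo_le (p : O.N.α → O.N.α → Set O.N.α) (q : O.N.α → Set O.N.α)
    (hp : ∀ x y, (p x y).Finite) (hq : ∀ s, (q s).Finite) (D : Set O.N.α) (hD : #D ≤ κ) :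
    #(clo O p q D) ≤ κ := by
  have hκ := K.aleph0_le
  have h1 := mk_need_le O p q hp hq D hD
  have h2 : #(⋃ k ∈ meets O D, O.e k '' (need O p q D) : Set O.N.α) ≤ κ :=
    mk_biUnion_le_of hκ _ ((mk_meets_le O D).trans hD) _ fun k => mk_image_le.trans h1
  refine (mk_union_le _ _).trans (add_le_of_le hκ ((mk_union_le _ _).trans
    (add_le_of_le hκ hD O.small)) h2)

end Clo

theorem s_clo (hDis : DisStmt.{u}) : CloStmt.{u} := by
  intro L κ K O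
  have hκ := K.aleph0_le
  -- finite witnesses
  have hp : ∀ x y : O.N.α, ∃ p : Set O.N.α, p.Finite ∧ (x ∈ O.C → y ∈ O.C →
      ∀ As : Set O.N.α, p ∩ O.C ⊆ As →
      Relation.ReflTransGen (fun a b => adjIn L (As ∪ O.B) a b ∧ b ∈ As) x y) := by
    intro x y
    by_cases hxy : x ∈ O.C ∧ y ∈ O.C
    · obtain ⟨p, hp, h⟩ := path O.closed (O.conn x hxy.1 y hxy.2)
      exact ⟨p, hp, fun _ _ => h⟩
    · exact ⟨∅, Set.finite_empty, fun hx hy => absurd ⟨hx, hy⟩ hxy⟩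
  have hq : ∀ s : O.N.α, ∃ q : Set O.N.α, q.Finite ∧ (s ∈ O.B → ∃ y, ∀ As : Set O.N.α,
      q ∩ O.C ⊆ As → y ∈ As ∧ adjIn L (As ∪ O.B) s y) := by
    intro s
    by_cases hs : s ∈ O.B
    · obtain ⟨y, hy, hsy⟩ := O.nbr s hs
      obtain ⟨q, hq, h⟩ := nbr O.closed hy hsy
      exact ⟨q, hq, fun _ => ⟨y, h⟩⟩
    · exact ⟨∅, Set.finite_empty, fun h => absurd h hs⟩
  choose p hpf hp using hp
  choose q hqf hq using hq
  -- small strong substructures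
  have hT : ∀ D : Set O.N.α, ∃ T : L.Substructure O.N.α, D ⊆ (T : Set O.N.α) ∧
      K.emb T.subtype ∧ (#D ≤ κ → #T ≤ κ) := by
    intro D
    obtain ⟨T, h1, h2, h3⟩ := K.ls O.N.prop D
    exact ⟨T, h1, h2, fun hD => h3.trans (add_le_of_le hκ hD le_rfl)⟩
  choose T hTD hTe hTc using hT
  obtain ⟨c₀, hc₀⟩ := O.ne
  obtain ⟨Q₀, hQ₀⟩ := le_mk_iff_exists_set.1 O.big.le
  let F : ℕ → L.Substructure O.N.α := fun n =>
    Nat.rec (motive := fun _ => L.Substructure O.N.α) (T ((fun k => O.e k c₀) '' Q₀))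
      (fun _ S => T (clo O p q (SetLike.coe S))) n
  have hF0 : F 0 = T ((fun k => O.e k c₀) '' Q₀) := rfl
  have hFs : ∀ n, F (n + 1) = T (clo O p q (SetLike.coe (F n))) := fun n => rfl
  have hFe : ∀ n, K.emb (F n).subtype := by
    intro n
    cases n with
    | zero => exact hTe _
    | succ n => exact hTe _
  have hFc : ∀ n, #(F n) ≤ κ := by
    intro n
    induction n with
    | zero =>
      refine hTc _ ?_
      exact mk_image_le.trans hQ₀.le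
    | succ n ih => exact hTc _ (mk_clo_le O p q hpf hqf _ ih)
  have hstep : ∀ n, clo O p q (F n : Set O.N.α) ⊆ (F (n + 1) : Set O.N.α) := by
    intro n
    rw [hFs]
    exact hTD _
  have hmono : Monotone F := by
    refine monotone_nat_of_le_succ fun n => ?_
    intro x hx
    exact hstep n (Or.inl (Or.inl hx))
  let G : ULift.{u} ℕ → L.Substructure O.N.α := fun n => F n.down
  have hdir : Directed (· ≤ ·) G := by
    intro a b
    exact ⟨⟨max a.down b.down⟩, hmono (le_max_left _ _), hmono (le_max_right _ _)⟩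
  have hmem : ∀ x : O.N.α, x ∈ (⨆ i, G i) ↔ ∃ n, x ∈ F n := by
    intro x
    rw [Substructure.mem_iSup_of_directed hdir]
    exact ⟨fun ⟨i, hi⟩ => ⟨i.down, hi⟩, fun ⟨n, hn⟩ => ⟨⟨n⟩, hn⟩⟩
  have hAe : K.emb (⨆ i, G i).subtype :=
    hDis L κ K O.N.α (ULift.{u} ℕ) G hdir fun i => hFe i.down
  have hAc : #(⨆ i, G i : L.Substructure O.N.α) ≤ κ := by
    have h1 : ((⨆ i, G i : L.Substructure O.N.α) : Set O.N.α) ⊆ ⋃ i, (G i : Set O.N.α) := by
      intro x hx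
      obtain ⟨n, hn⟩ := (hmem x).1 hx
      exact Set.mem_iUnion.2 ⟨⟨n⟩, hn⟩
    refine (mk_le_mk_of_subset h1).trans ((mk_iUnion_le _).trans ?_)
    have h2 : #(ULift.{u} ℕ) ≤ κ := by simpa using hκ
    calc #(ULift.{u} ℕ) * ⨆ i, #(G i : Set O.N.α) ≤ κ * κ :=
          mul_le_mul' h2 (ciSup_le' fun i => hFc i.down)
      _ = κ := mul_eq_self hκ
  -- the key closure property
  have hkey : ∀ n k x, k ∈ meets O (F n : Set O.N.α) → x ∈ need O p q (F n : Set O.N.α) →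
      O.e k x ∈ F (n + 1) := by
    intro n k x hk hx
    exact hstep n (Or.inr (Set.mem_biUnion hk ⟨x, hx, rfl⟩))
  have hne : ∀ n, (meets O (F n : Set O.N.α)).Nonempty := by
    intro n
    have h1 : Q₀.Nonempty := by
      rw [Set.nonempty_iff_ne_empty]
      intro h
      have h2 : #Q₀ = 0 := by
        rw [h]
        exact mk_eq_zero _
      exact absurd (hκ.trans (hQ₀.symm.trans h2).le) (not_le.2 aleph0_pos)
    obtain ⟨k, hk⟩ := h1
    exact ⟨k, c₀, hc₀, hmono (Nat.zero_le n) (hTD _ ⟨k, hk, rfl⟩)⟩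
  let A : L.Substructure O.N.α := ⨆ i, G i
  have hstar : ∀ x, x ∈ star O (A : Set O.N.α) ↔ ∃ n, x ∈ star O (F n : Set O.N.α) := by
    intro x
    constructor
    · rintro ⟨hx, k, hk⟩
      obtain ⟨n, hn⟩ := (hmem _).1 hk
      exact ⟨n, hx, k, hn⟩
    · rintro ⟨n, hx, k, hk⟩
      exact ⟨hx, k, (hmem _).2 ⟨n, hk⟩⟩
  have hmeets : ∀ k, k ∈ meets O (A : Set O.N.α) ↔ ∃ n, k ∈ meets O (F n : Set O.N.α) := by
    intro k
    constructor
    · rintro ⟨x, hx, hk⟩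
      obtain ⟨n, hn⟩ := (hmem _).1 hk
      exact ⟨n, x, hx, hn⟩
    · rintro ⟨n, x, hx, hk⟩
      exact ⟨x, hx, (hmem _).2 ⟨n, hk⟩⟩
  have hsm : ∀ m n, m ≤ n → star O (F m : Set O.N.α) ⊆ star O (F n : Set O.N.α) := by
    rintro m n hmn x ⟨hx, k, hk⟩
    exact ⟨hx, k, hmono hmn hk⟩
  have hmm : ∀ m n, m ≤ n → meets O (F m : Set O.N.α) ⊆ meets O (F n : Set O.N.α) := by
    rintro m n hmn k ⟨x, hx, hk⟩
    exact ⟨x, hx, hmono hmn hk⟩
  have hin : ∀ n x, x ∈ need O p q (F n : Set O.N.α) → x ∈ O.C →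
      x ∈ star O (A : Set O.N.α) := by
    intro n x hx hxC
    obtain ⟨k, hk⟩ := hne n
    exact (hstar x).2 ⟨n + 1, hxC, k, hkey n k x hk hx⟩
  refine ⟨A, star O (A : Set O.N.α), meets O (A : Set O.N.α), hAe, hAc, ?_, ?_, ?_, ?_, ?_, ?_,
    ?_, ?_⟩
  · intro s hs
    exact (hmem s).2 ⟨1, hstep 0 (Or.inl (Or.inr hs))⟩
  · exact fun x hx => hx.1
  · obtain ⟨k, hk⟩ := hne 0
    have h1 : Q₀.Nonempty := by
      rw [Set.nonempty_iff_ne_empty]
      intro h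
      have h2 : #Q₀ = 0 := by
        rw [h]
        exact mk_eq_zero _
      exact absurd (hκ.trans (hQ₀.symm.trans h2).le) (not_le.2 aleph0_pos)
    obtain ⟨k, hk⟩ := h1
    exact ⟨c₀, hc₀, k, (hmem _).2 ⟨0, hTD _ ⟨k, hk, rfl⟩⟩⟩
  · refine le_antisymm ((mk_meets_le O _).trans hAc) (hQ₀.ge.trans ?_)
    refine mk_le_mk_of_subset fun k hk => ?_
    exact ⟨c₀, hc₀, (hmem _).2 ⟨0, hTD _ ⟨k, hk, rfl⟩⟩⟩
  · intro k hk x hx
    constructor
    · exact fun h => ⟨hx, k, h⟩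
    · intro h
      obtain ⟨m, hm⟩ := (hmeets k).1 hk
      obtain ⟨n, hn⟩ := (hstar x).1 h
      refine (hmem _).2 ⟨max m n + 1, hkey _ k x (hmm _ _ (le_max_left _ _) hm) ?_⟩
      exact Or.inl (Or.inl (hsm _ _ (le_max_right _ _) hn))
  · exact fun k hk x hx h => hk ⟨x, hx, h⟩
  · intro x hx y hy
    obtain ⟨m, hm⟩ := (hstar x).1 hx
    obtain ⟨n, hn⟩ := (hstar y).1 hy
    refine hp x y hx.1 hy.1 _ ?_
    rintro z ⟨hz, hzC⟩
    refine hin (max m n) z (Or.inl (Or.inr ?_)) hzC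
    exact Set.mem_biUnion (hsm _ _ (le_max_left _ _) hm)
      (Set.mem_biUnion (hsm _ _ (le_max_right _ _) hn) hz)
  · intro s hs
    obtain ⟨y, hy⟩ := hq s hs
    refine ⟨y, hy _ ?_⟩
    rintro z ⟨hz, hzC⟩
    exact hin 0 z (Or.inr (Set.mem_biUnion hs hz)) hzC

end Pool.Agent.AEC.S.H46
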